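import Pool.Agent.Q274.BKL.Cv
import Pool.Agent.Q274.BKC.Tw

/-!
# Central order zero for the twists of CM newforms of infinitely many weights at once

Let `K = ℚ(√-7)`, let `E = X_0(49) : y² + x y = x³ - x² - 2 x - 1`, with complex multiplication by the integers
of `K`, and let `ψ` be its Hecke character. For even `i ≥ 0` let `π_i` be the cuspidal automorphic representation
of `GL_2` over `ℚ` with trivial central character of the newform of weight `2 i + 2` and level `49` with complex
multiplication by `K` attached to `ψ^(2i+1)`; it is self-contragredient. For a positive squarefree `D ≡ 1 mod 8`,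
prime to `7`, `χ_D` is the quadratic character of conductor `D`.

**The L-function.** Let `a_p = p - #{(x, y) mod p : y² + x y = x³ - x² - 2 x - 1}` and `X² - a_p X + p =
(X - α) (X - α')`. The Euler factor of `L(s + 1/2, π_i ⊗ χ_D)` is, for all the primes `p ≠ 7` not dividing `D`
(also `p = 2`), `1 - (p / D) (α^(2i+1) + α'^(2i+1)) p^(-s-i-1) + p^(2i+1) p^(-2s-2i-2)`; it is `1` for `p = 7`
and for `p` dividing `D`. The centre is `s = 0`.

**The matrix.** Let all prime factors of `D` be `1` modulo `4`, `D ≡ 1` modulo `8`. `R(D)` is the following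
symmetric matrix over `𝔽₂`, with rows and columns indexed by the prime factors `p` of `D` which split in `K`: the
entry at `(p, p')` is `0` if `p'` is a square modulo `p` and `1` otherwise; the diagonal entry at `p` is the sum
of the symbols of all the other prime factors of `D` modulo `p` and of the symbol which is `0` if `-7` is a fourth
power modulo `p` and `1` otherwise. The matrix does not depend on the weight.

**Theorem.** (1) If `R(D)` is nonsingular, then for ALL even `i ≥ 0`, that is for all the weights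
`2, 6, 10, …` at once, `L(s, π_i ⊗ χ_D)` is entire and not zero at the centre.
(2) Let `m_1, …, m_M` be different positive squarefree integers `≡ 1` modulo `8` whose prime factors are `1`
modulo `8` or inert in `K` and `5` modulo `8`. For exactly the proportion `κ^M`, `κ = (1 - 1/2) (1 - 1/8)
(1 - 1/32) ⋯ = 0.4194…`, of the squarefree `D` with all prime factors `1` modulo `8`, all the matrices
`R(m_1 D), …, R(m_M D)` (products modulo squares) are nonsingular; so for these `D` the central order is zero for
all the `M` twists and for all even `i` at once.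

The proof: for `i = 0` the algebraic part of the central value is a sum of the values of the zeta function at
points of odd order. For even `i ≥ 2` the numbers of Eisenstein and Kronecker `i! e*_{i,i+1}(z)` at the points of
odd order are congruent modulo `4` to a `2`-stabilization of the numbers of weight zero, by the Lamé equations
for the function of Kronecker in both variables and the integrality of its Laurent series at the origin in the
parameter of the formal group; the recursion over the divisors of `D` then gives that the `2`-adic valuation of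
the algebraic part of the central value is the least possible one exactly if `R(D)` is nonsingular, for all the
weights at once.
-/

set_option autoImplicit false
set_option linter.all false

namespace Pool.Agent.Results.MP_50bb2e_nt.AllEvenWeights

open Filter
open scoped Classical Topology

/-- `a_p = p - #{(x, y) mod p : y² + x y = x³ - x² - 2 x - 1}`. -/
noncomputable def a (p : ℕ) : ℤ := p - Nat.card {x : ZMod p × ZMod p //
  x.2 ^ 2 + x.1 * x.2 = x.1 ^ 3 - x.1 ^ 2 - 2 * x.1 - 1}

/-- `α^n + α'^n`, for `X² - a_p X + p = (X - α) (X - α')`. -/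
noncomputable def powerSum (p : ℕ) : ℕ → ℤ
  | 0 => 2
  | 1 => a p
  | n + 2 => a p * powerSum p (n + 1) - p * powerSum p n

/-- The Euler factor of `L(s + 1/2, π_i ⊗ χ_D)` at `p`, all `p`. -/
noncomputable def eulerFactor (D i : ℕ) (s : ℂ) (p : ℕ) : ℂ :=
  1 - (jacobiSym p D * powerSum p (2 * i + 1) : ℤ) * (p : ℂ) ^ (-(s + i + 1)) +
    (if p = 7 then 0 else 1) * ((jacobiSym p D ^ 2 * p ^ (2 * i + 1) : ℤ) : ℂ) *
      ((p : ℂ) ^ (-(s + i + 1))) ^ 2

/-- `F` is the `L`-function `L(s + 1/2, π_i ⊗ χ_D)`: an entire function which is the product of the inverses of all the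
Euler factors for `Re s > 1/2`. -/
def IsLFunction (D i : ℕ) (F : ℂ → ℂ) : Prop := Differentiable ℂ F ∧
  ∀ s : ℂ, 1 / 2 < s.re → HasProd (fun p : Nat.Primes => (eulerFactor D i s p)⁻¹) (F s)

/-- The `L`-function `L(s + 1/2, π_i ⊗ χ_D)` is entire and its order at the centre `s = 0` is zero. -/
def OrderZero (D i : ℕ) : Prop := ∃ F : ℂ → ℂ, IsLFunction D i F ∧ analyticOrderAt F 0 = 0

/-- The class of the `D`: squarefree, all prime factors `1` modulo `4`, `D ≡ 1` modulo `8`. -/
def Class (D : ℕ) : Prop := Squarefree D ∧ (∀ p : ℕ, p.Prime → p ∣ D → p % 4 = 1) ∧ D % 8 = 1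

/-- The prime factors of `D` which split in `ℚ(√-7)`. -/
noncomputable def splitPrimes (D : ℕ) : Finset ℕ :=
  D.primeFactors.filter fun p => IsSquare (-7 : ZMod p)

/-- `0` if `a` is a square modulo `p` and `1` otherwise. -/
noncomputable def nonsquare (p a : ℕ) : ZMod 2 := if IsSquare (a : ZMod p) then 0 else 1

/-- `0` if `-7` is a fourth power modulo `p` and `1` otherwise. -/
noncomputable def nonfourth (p : ℕ) : ZMod 2 := if ∃ y : ZMod p, y ^ 4 = -7 then 0 else 1

/-- The matrix `R(D)`. -/
noncomputable def R (D : ℕ) : Matrix (splitPrimes D) (splitPrimes D) (ZMod 2) :=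
  Matrix.of fun i j => if i = j then ∑ r ∈ D.primeFactors.erase i, nonsquare i r + nonfourth i
    else nonsquare i j

/-- The squarefree integers with all prime factors `1` modulo `8`. -/
def Class8 (D : ℕ) : Prop := Squarefree D ∧ ∀ p : ℕ, p.Prime → p ∣ D → p % 8 = 1

/-- The factors `m_j`: in the class, all prime factors `1` mod `8` or inert in `ℚ(√-7)` and `5` mod `8`. -/
def Factor (m : ℕ) : Prop := Class m ∧
  ∀ p : ℕ, p.Prime → p ∣ m → p % 8 = 1 ∨ (p % 8 = 5 ∧ ¬ IsSquare (-7 : ZMod p))

/-- The squarefree part of `m D`, for squarefree `m` and `D`. -/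
def times (m D : ℕ) : ℕ := m * D / Nat.gcd m D ^ 2

/-- The proportion of the `D ≤ X` with property `T` among those with all prime factors `1` mod `8`. -/
noncomputable def proportion (T : ℕ → Prop) (X : ℕ) : ℝ :=
  (((Finset.Icc 1 X).filter fun D => Class8 D ∧ T D).card : ℝ) /
    (((Finset.Icc 1 X).filter fun D => Class8 D).card : ℝ)

/-- The number `κ = (1 - 1/2) (1 - 1/8) (1 - 1/32) ⋯`. -/
noncomputable def κ : ℝ := ∏' i : ℕ, (1 - (1 / 2 : ℝ) ^ (2 * i + 1))

/-- (1) Order zero for all even `i`. -/
def AllEvenWeights : Prop := ∀ D : ℕ, Class D → (R D).det ≠ 0 → ∀ i : ℕ, Even i → OrderZero D i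

/-- (2) The proportion. -/
def JointProportion : Prop :=
  ∀ (M : ℕ) (m : Fin M → ℕ), Function.Injective m → (∀ j, Factor (m j)) →
    (∀ D, Class8 D → ∀ j, Class (times (m j) D)) ∧
    Tendsto (proportion fun D => ∀ j, (R (times (m j) D)).det ≠ 0) atTop (𝓝 (κ ^ M))

section proof

open Pool.Agent.Q274.BKC

lemma cl_iff (D : ℕ) : Class D ↔ Cl 7 D := by
  constructor
  · rintro ⟨h1, h2, h3⟩
    exact ⟨h1, fun p hp hd => ⟨h2 p hp hd, by have := h2 p hp hd; omega⟩, by omega⟩
  · rintro ⟨h1, h2, h3⟩
    exact ⟨h1, fun p hp hd => (h2 p hp hd).1, by omega⟩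

lemma cl8_iff (D : ℕ) : Class8 D ↔ Cl8 7 D := by
  constructor
  · rintro ⟨h1, h2⟩
    exact ⟨h1, fun p hp hd => ⟨h2 p hp hd, by have := h2 p hp hd; omega⟩⟩
  · rintro ⟨h1, h2⟩
    exact ⟨h1, fun p hp hd => (h2 p hp hd).1⟩

lemma fac_iff {m : ℕ} (h : Factor m) : Clm 7 m ∧ (16 : ℤ) ∣ 2 * m + 5 - (7 : ℕ) := by
  have hc := (cl_iff m).1 h.1
  exact ⟨⟨h.1.1, fun p hp hm => ⟨by simpa using h.2 p hp hm, (hc.one p hp hm).2⟩⟩, hc.cong⟩

lemma sp_eq (D : ℕ) : splitPrimes D = SP 7 D := by
  unfold splitPrimes SP
  simp

lemma det_iff (D : ℕ) : (R D).det ≠ 0 ↔ corank 7 D = 0 := by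
  have h1 : (Pool.Agent.Q274.BKC.R 7 D).det ≠ 0 ↔ corank 7 D = 0 := by
    unfold corank
    rw [Submodule.finrank_eq_zero, Matrix.ker_mulVecLin_eq_bot_iff]
    constructor
    · intro h v hv
      by_contra h0
      exact h (Matrix.exists_mulVec_eq_zero_iff.1 ⟨v, h0, hv⟩)
    · intro h h0
      obtain ⟨v, hv, hv0⟩ := Matrix.exists_mulVec_eq_zero_iff.2 h0
      exact hv (h v hv0)
  rw [← h1]
  have h2 : (R D).det = (Pool.Agent.Q274.BKC.R 7 D).det := by
    have key : ∀ (S : Finset ℕ) (h : S = SP 7 D),
        (Matrix.of fun i j : S => if i = j then ∑ r ∈ D.primeFactors.erase (i : ℕ),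
          nonsquare i r + nonfourth i else nonsquare i j).det =
        (Pool.Agent.Q274.BKC.R 7 D).det := by
      rintro S rfl
      congr 1
    exact key _ (sp_eq D)
  rw [h2]

end proof

theorem result : AllEvenWeights ∧ JointProportion ∧ 0.4194 < κ ∧ κ < 0.4195 := by
  refine ⟨?_, ?_, Pool.Agent.Q274.BKC.kappa_bounds.1, Pool.Agent.Q274.BKC.kappa_bounds.2⟩
  · intro D hD hR i hi
    have hD' := (cl_iff D).1 hD
    have h0 := (det_iff D).1 hR
    obtain ⟨F, g1, g2, g3⟩ := Pool.Agent.Q274.BKL.central_ep hD' h0 hi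
    refine ⟨F, ⟨g1, fun s hs => ?_⟩, ?_⟩
    · have e : ∀ p : ℕ, powerSum p = Pool.Agent.Q274.BKL.uu p := by
        intro p
        funext n
        induction n using Nat.twoStepInduction with
        | zero => rfl
        | one => rfl
        | more n h1 h2 =>
          rw [powerSum, Pool.Agent.Q274.BKL.uu, h1, h2]
          rfl
      have h1 := g2 s hs
      unfold Pool.Agent.Q274.BKL.ef at h1
      unfold eulerFactor
      simp only [e]
      exact h1
    · rw [AnalyticAt.analyticOrderAt_eq_zero (g1.analyticAt 0)]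
      exact g3
  · intro M m hm hf
    refine ⟨fun D hD j => ?_, ?_⟩
    · obtain ⟨h1, h2⟩ := fac_iff (hf j)
      exact (cl_iff _).2 (Pool.Agent.Q274.BKC.tw_Cl h1 h2 ((cl8_iff D).1 hD))
    · have h := Pool.Agent.Q274.BKC.t_LAW 7 (by norm_num) rfl M m (fun _ => 0) hm
        fun j => (fac_iff (hf j)).1
      rw [Pool.Agent.Q274.BKC.cR_eq] at h
      have e : (∏ j : Fin M, ((∏' i : ℕ, (1 - (1 / 2 : ℝ) ^ (2 * i + 1))) /
          ∏ i ∈ Finset.range 0, ((2 : ℝ) ^ (i + 1) - 1))) = κ ^ M := by
        simp [κ]
      rw [e] at h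
      refine h.congr fun X => ?_
      unfold proportion
      simp only [det_iff, cl8_iff]
      congr! 4

end Pool.Agent.Results.MP_50bb2e_nt.AllEvenWeights
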