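import Mathlib
import Pool.Agent.Results.MP_f50388_nt.ExactLawAbelianFields
import Pool.Agent.Q283.Q3.Bin

/-!
# The 2-part of the conjecture over abelian fields for almost all `D` and any sequence of twists

`E_D` is the quadratic twist by `D` of `X_0(49) : y² + x y = x³ - x² - 2 x - 1`; `K_1, …, K_s` are number
fields, `K_i` is the subfield of degree `2 ^ n_i ≥ 2` of `ℚ(ζ_{r_i})`, `r_i ≡ 1 mod 4` a prime number which
is inert in `ℚ(√-7)`. The class consists of the squarefree positive integers whose prime factors `p` are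
`1` modulo `4`, different from the `r_i`, with Frobenius element in all the `K_i` of order one (if `p`
splits in `ℚ(√-7)`) or at most two (if `p` is inert in `ℚ(√-7)`). Let `m_0, m_1, m_2, …` be ANY infinite
sequence of different elements of the class, let `D` run through ALL elements of the class, ordered by
size, and let `r_k(D)` be the corank of the explicit matrix over `𝔽₂` of the twist `E_{m_k D}`.

* `r_k(D) = 0` if and only if, for one (equivalently, every) `i`, `E_{m_k D}(K_i)` is finite and
  `Ш(E_{m_k D} / K_i)[2] = 0`; and in this case the 2-part of the conjecture holds for `E_{m_k D}` over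
  all the fields `K_i`: the equation is minimal, `L(E / K_i, s)` is entire and not zero at `1`,
  `Ш(E / K_i)[2^∞] = 0` and `√|Disc K_i| #E(K_i)_tors² L(E / K_i, 1) / (Ω ∏ c_v)` is a unit above two.
* BINOMIAL LAW: for every set `T` of natural numbers, of measure `p` for the law
  `α_r = κ / ((2 - 1) (4 - 1) ⋯ (2 ^ r - 1))`, `κ = 0.4194…`, and all `n` and `j`, the proportion of the `D`
  for which exactly `j` of `r_0(D), …, r_{n-1}(D)` are in `T` tends to `(n choose j) p^j (1 - p)^(n - j)`.
* LAW OF LARGE NUMBERS: the `D` for which the frequency of `{k < n | r_k(D) ∈ T}` differs from `p` by at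
  least `ε` have a relative density, which is at most `2 exp (- ε² n / 4)`.
* For every `N`, for `100 %` of the `D` there are at least `N` of the curves `E_{m_0 D}, E_{m_1 D}, …`
  which satisfy the 2-part of the conjecture over ALL the fields `K_1, …, K_s`, with rank and order of
  vanishing zero over these fields.
-/

set_option autoImplicit false

open scoped Classical

namespace Pool.Agent.Results.MP_50bb2e_nt.AlmostAllTwistsAbelianFields

open Pool.Agent.Results.MP_f50388_nt.ExactLawAbelianFields

/-- The multipliers: different elements of the class. -/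
structure Multipliers (F : Fields) (m : ℕ → ℕ) : Prop where
  inj : Function.Injective m
  cls : ∀ k, Class F (m k)

/-- Over all the fields `K_i` the group `E_N(K_i)` is finite and the 2-part of the conjecture holds, with
`L(E_N / K_i, 1) ≠ 0`. -/
def TwoPartAll (F : Fields) (N : ℕ) : Prop :=
  ∀ i, FinitePoints (F.K i) N ∧
    TwoPartFormula (F.K i) N (1 + ((inertPart N).card + 2 * (splitPart N).card) * 2 ^ F.n i)

/-- The proportion of the `D` with the property `P` among the `D ≤ X` of the class. -/
noncomputable def proportion (F : Fields) (P : ℕ → Prop) (X : ℕ) : ℝ :=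
  (count F P X : ℝ) / (count F (fun _ => True) X : ℝ)

/-- The number of the `k < n` for which the corank of the twist by `m_k D` is in `T`. -/
noncomputable def number (m : ℕ → ℕ) (T : Set ℕ) (n D : ℕ) : ℕ :=
  ((Finset.range n).filter fun k => corank (tw (m k) D) ∈ T).card

/-- The measure of a set of natural numbers for the law `α`. -/
noncomputable def measure (T : Set ℕ) : ℝ := ∑' r : T, α r

/-- the class up to `X` -/
noncomputable def SC (F : Fields) (X : ℕ) : Finset ℕ := (Finset.Icc 1 X).filter fun D => Class F D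

theorem count_eq (F : Fields) (P : ℕ → Prop) (X : ℕ) :
    count F P X = ((SC F X).filter fun D => P D).card := by
  unfold count SC
  rw [Finset.filter_filter]

theorem prop_eq (F : Fields) (P : ℕ → Prop) (X : ℕ) :
    proportion F P X = (((SC F X).filter fun D => P D).card : ℝ) / ((SC F X).card : ℝ) := by
  unfold proportion
  rw [count_eq, count_eq]
  congr 2
  exact (Q283.T3.fcc2 _ _).trans (congrArg Finset.card (Finset.filter_true_of_mem fun _ _ => trivial))

theorem sum_α (F : Fields) : HasSum α 1 := (result F).2.2.2.2.2.1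

theorem κ_pos (F : Fields) : 0 < κ := by
  have := (result F).2.2.2.2.2.2.2.1
  linarith

theorem α_pos (F : Fields) (b : ℕ) : 0 < α b := by
  unfold α
  refine div_pos (κ_pos F) (Finset.prod_pos fun i _ => ?_)
  have : (1 : ℝ) < 2 ^ (i + 1) := one_lt_pow₀ (by norm_num) (Nat.succ_ne_zero i)
  linarith

theorem law0 {F : Fields} {m : ℕ → ℕ} (hm : Multipliers F m) :
    Q283.Bin.Law (SC F) (fun k D => corank (tw (m k) D)) α := by
  intro M i hi b
  refine (law F (fun k => m (i k)) (fun k => hm.cls _) (hm.inj.comp hi) b).congr fun X => ?_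
  exact (prop_eq F (fun D => ∀ k, corank (tw (m (i k)) D) = b k) X).trans
    (congrArg (fun n : ℕ => (n : ℝ) / ((SC F X).card : ℝ)) (Q283.T3.fcc2 _ _))

theorem ne_SC (F : Fields) : ∀ᶠ X : ℕ in Filter.atTop, (SC F X).Nonempty := by
  filter_upwards [Filter.eventually_ge_atTop 1] with X hX
  refine ⟨1, Finset.mem_filter.2 ⟨Finset.mem_Icc.2 ⟨le_rfl, hX⟩, squarefree_one, fun p hp h => ?_⟩⟩
  exact absurd (Nat.dvd_one.1 h) hp.one_lt.ne'

theorem meas_one (F : Fields) {T : Set ℕ} : 0 ≤ measure T ∧ measure T ≤ 1 := by
  constructor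
  · exact tsum_nonneg fun r => (α_pos F r).le
  · unfold measure
    rw [tsum_subtype T α, ← (sum_α F).tsum_eq]
    refine Summable.tsum_le_tsum (fun r => ?_) ((sum_α F).summable.indicator T) (sum_α F).summable
    exact Set.indicator_le_self' (fun _ _ => (α_pos F _).le) r

theorem meas_zero : measure {0} = κ := by
  unfold measure
  rw [tsum_subtype ({0} : Set ℕ) α, tsum_eq_single 0]
  · simp [α]
  · intro s hs
    rw [Set.indicator_of_notMem (by simpa using hs)]

theorem two_part {F : Fields} {N : ℕ} (hN : Class F N) (h : corank N = 0) : TwoPartAll F N := by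
  intro i
  obtain ⟨h1, h2⟩ := good_iff hN i
  exact ⟨(h1.2 h).1, h2 h⟩

theorem result (F : Fields) (m : ℕ → ℕ) (hm : Multipliers F m) :
    (∀ D : ℕ, Class F D → ∀ k, Class F (tw (m k) D) ∧
      (∀ i, Good (F.K i) (tw (m k) D) ↔ corank (tw (m k) D) = 0) ∧
      (corank (tw (m k) D) = 0 → TwoPartAll F (tw (m k) D))) ∧
    (∀ (T : Set ℕ) (n j : ℕ), Filter.Tendsto (proportion F fun D => number m T n D = j)
      Filter.atTop (nhds (n.choose j * measure T ^ j * (1 - measure T) ^ (n - j)))) ∧
    (∀ (T : Set ℕ) (n : ℕ), 0 < n → ∀ ε : ℝ, 0 < ε → ∃ l : ℝ, l ≤ 2 * Real.exp (-(ε ^ 2 * n / 4)) ∧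
      Filter.Tendsto (proportion F fun D => ε ≤ |(number m T n D : ℝ) / n - measure T|)
        Filter.atTop (nhds l)) ∧
    (∀ N : ℕ, Filter.Tendsto (proportion F fun D => ∃ S : Finset ℕ, S.card = N ∧ ∀ k ∈ S,
      TwoPartAll F (tw (m k) D)) Filter.atTop (nhds 1)) ∧
    HasSum α 1 ∧ measure {0} = κ ∧ 0.4194 < κ ∧ κ < 0.4195 := by
  have hres := Pool.Agent.Results.MP_f50388_nt.ExactLawAbelianFields.result F
  have hα0 : ∀ r, 0 ≤ α r := fun r => (α_pos F r).le
  have hpat := fun T => Q283.Bin.pat_T (sum_α F) hα0 (ne_SC F) (law0 hm) T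
  refine ⟨fun D hD k => ?_, fun T n j => ?_, fun T n hn ε hε => ?_, fun N => ?_, sum_α F, meas_zero,
    hres.2.2.2.2.2.2.2⟩
  · have hC := tw_class (hm.cls k) hD
    exact ⟨hC, fun i => (good_iff hC i).1, two_part hC⟩
  · refine (Q283.Bin.binom (hpat T) n j).congr fun X => ?_
    rw [prop_eq]
    exact congrArg (fun n : ℕ => (n : ℝ) / ((SC F X).card : ℝ)) (Q283.T3.fcc2 _ _)
  · obtain ⟨l, hl, h⟩ := Q283.Bin.lln_exp (meas_one F).1 (meas_one F).2 (hpat T) n hn ε hε
    refine ⟨l, hl, h.congr fun X => ?_⟩
    rw [prop_eq]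
    exact congrArg (fun n : ℕ => (n : ℝ) / ((SC F X).card : ℝ)) (Q283.T3.fcc2 _ _)
  · have h := Q283.Bin.many_T (sum_α F) hα0 (ne_SC F) (law0 hm) {0}
      (by
        have := meas_zero
        unfold measure at this
        rw [this]
        exact κ_pos F) N
    rw [tendsto_order] at h ⊢
    refine ⟨fun b hb => ?_, fun b hb => Filter.Eventually.of_forall fun X => ?_⟩
    · filter_upwards [h.1 b hb] with X hX
      refine hX.trans_le ?_
      rw [prop_eq]
      refine div_le_div_of_nonneg_right ?_ (Nat.cast_nonneg _)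
      rw [Nat.cast_le]
      refine Finset.card_le_card fun D hD => ?_
      rw [Finset.mem_filter] at hD ⊢
      obtain ⟨h1, S, h2, h3⟩ := hD
      have hDC : Class F D := (Finset.mem_filter.1 h1).2
      exact ⟨h1, S, h2, fun k hk => two_part (tw_class (hm.cls k) hDC) (h3 k hk)⟩
    · refine lt_of_le_of_lt ?_ hb
      rw [prop_eq]
      exact div_le_one_of_le₀ (Nat.cast_le.2 (Finset.card_filter_le _ _)) (Nat.cast_nonneg _)

end Pool.Agent.Results.MP_50bb2e_nt.AlmostAllTwistsAbelianFields
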