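import Pool.Agent.Q138.PS.UA
import Pool.Agent.Q274.XF.Form

/-!
# Central order zero for the twists by the integers `± ⌊β P(n)⌋` over multiquadratic fields

`E_M : y² = x³ + 5805 M² x - 285714 M³` is the twist by `M` of the non-CM curve `X_0(14)`. Let
`K = ℚ(√d_1, …, √d_n)` be of degree `2ⁿ`, where `M` and the `d_i` are, up to squares, in the class
`Adm` of the squarefree `D = 1 mod 4` of any sign which are squares modulo `7`, prime to `3`, and all
prime factors of which split completely in `ℚ(i, √2, √-7)` or are inert in `ℚ(√2)` and in `ℚ(√-7)`.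
Let `π` be the automorphic representation of `GL₂(𝔸_K)` of `E_M` over `K`.

Let `q ≥ 2`. Outside a set of real numbers of Hausdorff dimension at most `q / (q + 1 / (q 2 ^ (q - 1)))` (that is
`8 / 9` for `q = 2`) every `β > 0` has the following property for all these `n`, `M`, `d` and both signs `s`. For ALL
integral polynomials `P` of degree `q` with positive leading coefficient and coefficients of size at most `N ^ η`, at
least `N ^ (1 - ε)` of the `D = s ⌊β P(n)⌋`, `n ≤ N`, are in the class, and for at least the proportion `c ^ 2ⁿ`,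
`c = ∏_{i ≥ 0} (1 - 2^{-(2i+1)}) = 0.4194...`, of these the twist of `π` by the quadratic character of `K(√D)/K` has
central order `0`, for ALL fields `K` of the form above.
-/

set_option autoImplicit false

open Finset NumberField Filter Topology
open Pool.Agent.Q138.PS

namespace Pool.Agent.Results.MP_50bb2e_nt.OrderZeroRealMultiples

open Pool.Agent.Q274.XF

/-- the `L`-function of `E_M` over `K` (without the Euler factors above `42 M m`) is entire and not zero at the
centre `s = 1` -/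
def OrderZero (K : Type) [Field K] [NumberField K] (M m : ℤ) : Prop :=
  (∃ L : ℂ → ℂ, IsL K M m L) ∧ ∀ L : ℂ → ℂ, IsL K M m L → L 1 ≠ 0

open Classical in
/-- the number of the `n ≤ N` for which `D = s ⌊β P(n)⌋` belongs to the class and has the property `Q` -/
noncomputable def count (s : ℤ) (β : ℝ) (P : Polynomial ℤ) (N : ℕ) (Q : ℤ → Prop) : ℕ :=
  ((Icc 1 N).filter fun n : ℕ => Adm (s * (⌊β * ((P.eval (n : ℤ) : ℤ) : ℝ)⌋₊ : ℤ)) ∧
    Q (s * (⌊β * ((P.eval (n : ℤ) : ℤ) : ℝ)⌋₊ : ℤ))).card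

theorem adm_zero : ¬ Adm 0 := fun h => not_squarefree_zero h.1

theorem count_eq (s : ℤ) (hs : s = 1 ∨ s = -1) (β : ℝ) (P : Polynomial ℤ) (N : ℕ) (Q : ℤ → Prop) :
    count s β P N Q = cnS (fun D => 0 < s * D ∧ (Adm D ∧ Q D)) β P N := by
  classical
  rw [cnS_sign s hs (fun D => Adm D ∧ Q D) (fun h => adm_zero h.1)]
  unfold count
  refine congrArg _ ?_
  ext n
  simp only [mem_filter]

theorem count_mono (s : ℤ) (β : ℝ) (P : Polynomial ℤ) (N : ℕ) (Q R : ℤ → Prop)
    (h : ∀ D, Q D → R D) : count s β P N Q ≤ count s β P N R := by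
  classical
  unfold count
  refine card_le_card fun n hn => ?_
  rw [mem_filter] at hn ⊢
  exact ⟨hn.1, hn.2.1, h _ hn.2.2⟩

theorem prop_nz (s : ℤ) (hs : s = 1 ∨ s = -1) (R : ℤ → Prop) (y : ℕ) :
    prop s (fun D => R (s * (D : ℤ))) y =
      nz (fun D => 0 < s * D ∧ (Adm D ∧ R D)) y / nz (fun D => 0 < s * D ∧ (Adm D ∧ True)) y := by
  classical
  rw [nz_nat s hs, nz_nat s hs]
  unfold prop
  congr 2
  refine congrArg _ ?_
  ext n
  simp only [mem_filter, and_true]

/-- **Theorem.** Let `q ≥ 2`. There is a set `E` of Hausdorff dimension at most `q / (q + 1 / (q 2 ^ (q - 1)))` such that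
for every real `β > 0` outside `E`, all `n`, all `M` and `d_1, …, d_n` which are in the class up to squares and such
that `K = ℚ(√d_1, …, √d_n)` has degree `2ⁿ`, and both signs `s` there is `η > 0` such that for every `ε > 0`, all large `N`
and ALL `P ∈ ℤ[x]` of degree `q` with positive leading coefficient and coefficients of size at most `N ^ η`: at least
`N ^ (1 - ε)` of the `D = s ⌊β P(n)⌋`, `n ≤ N`, are in the class, and for at least the proportion `c ^ 2ⁿ - ε` of these the
`L`-function of `E_{M D}` over `K` is entire and not zero at the centre. -/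
theorem result (q : ℕ) (hq : 2 ≤ q) :
    (0.4194 < c ∧ c < 0.4195) ∧
    ∃ E : Set ℝ, dimH E ≤ ENNReal.ofReal ((q : ℝ) / (q + 1 / (q * 2 ^ (q - 1)))) ∧ ∀ β : ℝ, 0 < β → β ∉ E →
      ∀ (n : ℕ) (M : ℤ) (d : Fin n → ℤ), AdmSq M → (∀ i, AdmSq (d i)) →
        (∀ T : Finset (Fin n), T.Nonempty → ¬ IsSquare (∏ i ∈ T, d i)) → ∀ s : ℤ, (s = 1 ∨ s = -1) →
        ∃ η : ℝ, 0 < η ∧ ∀ ε : ℝ, 0 < ε → ∀ᶠ N : ℕ in atTop, ∀ P : Polynomial ℤ, P.natDegree = q →
          0 < P.leadingCoeff → (∀ j, |((P.coeff j : ℤ) : ℝ)| ≤ (N : ℝ) ^ η) →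
          (N : ℝ) ^ (1 - ε) ≤ count s β P N (fun _ => True) ∧
          (c ^ 2 ^ n - ε) * count s β P N (fun _ => True) ≤ count s β P N (fun D =>
            ∀ (K : Type) [Field K] [NumberField K], IsMultiquadratic d K → OrderZero K (M * D) (∏ i, d i)) := by
  obtain ⟨h1, h2, -, h4, h5⟩ := parts
  refine ⟨⟨h4, h5⟩, ?_⟩
  obtain ⟨E, hE, hT⟩ := ratio_one_sign (ι := Σ n : ℕ, ℤ × (Fin n → ℤ)) q hq
    (fun i D => Adm D ∧ GoodPair (i.2.1 * D) i.2.2) (fun _ D => Adm D ∧ True)
    (fun i => ⟨fun h => adm_zero h.1, fun h => adm_zero h.1⟩)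
  refine ⟨E, hE, fun β hβ hβE n M d hM hd hind s hs => ?_⟩
  have hbig : ∀ e : ℝ, 0 < e → ∀ᶠ y : ℕ in atTop,
      (y : ℝ) ^ (1 - e) ≤ nz (fun D => 0 < s * D ∧ (Adm D ∧ True)) y := by
    intro e he
    have h := nz_adm_big s hs e he
    have e1 : (fun D : ℤ => 0 < s * D ∧ (Adm D ∧ True)) = fun D => 0 < s * D ∧ Pool.Agent.Y687.MQ.AdmD D := by
      funext D
      rw [and_true]
      rfl
    rw [e1]
    exact h
  have h6 := h2 n d M ⟨hind, hd⟩ hM s hs
  obtain ⟨η, hη, h7⟩ := hT β hβ hβE ⟨n, M, d⟩ s hs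
  refine ⟨η, hη, fun ε hε => ?_⟩
  have k1 := h7 (c ^ 2 ^ n) hbig (by
    refine h6.congr fun y => ?_
    exact prop_nz s hs (fun D => GoodPair (M * D) d) y) ε hε
  filter_upwards [k1] with N g1
  intro P hdeg hlead hco
  obtain ⟨j1, j2⟩ := g1 P hdeg hlead hco
  have j1 : |(cnS (fun D => 0 < s * D ∧ (Adm D ∧ GoodPair (M * D) d)) β P N : ℝ) -
    c ^ 2 ^ n * cnS (fun D => 0 < s * D ∧ (Adm D ∧ True)) β P N| ≤
      ε * cnS (fun D => 0 < s * D ∧ (Adm D ∧ True)) β P N := j1
  rw [← count_eq s hs, ← count_eq s hs] at j1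
  rw [← count_eq s hs] at j2
  refine ⟨j2, ?_⟩
  have j3 := count_mono s β P N (fun D => GoodPair (M * D) d)
    (fun D => ∀ (K : Type) [Field K] [NumberField K], IsMultiquadratic d K → OrderZero K (M * D) (∏ i, d i))
    (fun D hD K _ _ hK => by
      obtain ⟨-, -, -, -, a4, a5⟩ := h1 n (M * D) d hD K hK
      exact ⟨a4, a5⟩)
  have j4 : (count s β P N (fun D => GoodPair (M * D) d) : ℝ) ≤
    count s β P N (fun D => ∀ (K : Type) [Field K] [NumberField K], IsMultiquadratic d K →
      OrderZero K (M * D) (∏ i, d i)) := by exact_mod_cast j3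
  have j5 := (abs_le.1 j1).1
  linarith

end Pool.Agent.Results.MP_50bb2e_nt.OrderZeroRealMultiples
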