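import Pool.Agent.Q155.NL.Gen
import Pool.Agent.Results.MP_f50388_nt.ExactLawAbelianFields

/-!
# Nonvanishing twists over several number fields at once, inside the divisors of almost every `D`

`π` is the representation of `GL(2)` which belongs to `X_0(49)`, and `π_K` its base change to a number
field `K`; `E_D` is the quadratic twist by `D` of `X_0(49)`, so `L(E_D/K, s)` is the L-function of
`π_K ⊗ χ_D` (shifted by `1/2`), where `χ_D` is the quadratic character of `K(√D)/K`.

`K_1, …, K_s` are any fields, `K_i` of degree `2 ^ n_i ≥ 2` inside `ℚ(ζ_{r_i})`, where `r_i` is a prime number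
`≡ 1 mod 4` which is inert in `ℚ(√-7)`. The class consists of the squarefree positive integers `D` whose
prime factors `p` are `1` modulo `4`, different from the `r_i`, with Frobenius element in every `K_i` of
order one if `p` splits in `ℚ(√-7)`, and of order at most two otherwise (a positive density of the primes).

There is ONE set `𝒮` of members of the class, of relative density one in the class (in the natural order),
such that for EVERY `m` of the class (the base twist: nothing is assumed on `E_m`) and every `ε > 0` the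
following holds for all large `D ∈ 𝒮`, where `d` runs over the divisors of `D` and `n = m d` (squarefree
part):

* for the share `κ ± ε` of the `d`, `κ = ∏ (1 - 2 ^ (-2 i - 1)) = 0.4194…`, over ALL the fields `K_i` the
  L-function of `E_n` is entire and does not vanish at the centre `s = 1`, `E_n(K_i)` is finite and
  `Ш(E_n/K_i)[2] = 0`; so simultaneous nonvanishing over all the `K_i` holds for at least the share `κ - ε`;
* for the share `κ ± ε` of the `d`, moreover, over all the `K_i` the whole `2`-part of the conjecture of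
  Birch and Swinnerton-Dyer holds;
* for every `t`, for at least the share `1 - (α_0 + ⋯ + α_t) - ε` of the `d` the following holds over every
  `K_i`: `E_n(K_i)` is infinite or `Ш(E_n/K_i)` has at least `2 ^ (t + 1)` elements killed by `2`; here
  `α_b = κ / ((2 - 1) (4 - 1) ⋯ (2 ^ b - 1))`.

The definitions are those of `MP_f50388_nt.ExactLawAbelianFields`, where the means over all the `D` of the
class are determined. Here the law is proved inside the family of the divisors of almost every single
`D`, and around every base twist.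
-/

set_option autoImplicit false

open NumberField IsDedekindDomain WeierstrassCurve MeasureTheory

namespace Pool.Agent.Results.MP_50bb2e_nt.TwistsOverFieldsInsideDivisors

open Pool.Agent.Results.MP_f50388_nt.ExactLawAbelianFields

/-- `L(E_D/K, s)` has an entire continuation which does not vanish at `s = 1` -/
def Nonvanishing (K : Type) [Field K] [NumberField K] (D : ℕ) : Prop :=
  ∃ Λ : ℂ → ℂ, Differentiable ℂ Λ ∧ (∀ s : ℂ, 2 < s.re → Λ s = (base (twist D) K).LSeries s) ∧ Λ 1 ≠ 0

/-- over all the fields `K_i`: nonvanishing, `E_D(K_i)` finite, `Ш(E_D/K_i)[2] = 0` -/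
def AllGood (F : Fields) (D : ℕ) : Prop := ∀ i, Nonvanishing (F.K i) D ∧ Good (F.K i) D

/-- over all the fields `K_i`: moreover the `2`-part of the conjecture of Birch and Swinnerton-Dyer -/
def AllFormula (F : Fields) (D : ℕ) : Prop := ∀ i, Good (F.K i) D ∧
  TwoPartFormula (F.K i) D (1 + ((inertPart D).card + 2 * (splitPart D).card) * 2 ^ F.n i)

/-- over all the fields `K_i`: `E_D(K_i)` is infinite or `Ш(E_D/K_i)` has at least `2 ^ (t + 1)` elements
killed by two -/
def AllLarge (F : Fields) (t D : ℕ) : Prop :=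
  ∀ i, FinitePoints (F.K i) D → 2 ^ (t + 1) ≤ shaTwo (F.K i) D

/-- the number of the positive integers up to `X` with the property `T` -/
noncomputable def number (T : ℕ → Prop) (X : ℕ) : ℕ := Nat.card {D : ℕ // (1 ≤ D ∧ D ≤ X) ∧ T D}

/-- the share of the divisors `d` of `D` for which the squarefree part of `m d` has the property `T` -/
noncomputable def share (m D : ℕ) (T : ℕ → Prop) : ℝ :=
  (Nat.card {d : ℕ // d ∈ D.divisors ∧ T (tw m d)} : ℝ) / D.divisors.card

/-- the law for the base twist `m` and the divisors of `D` -/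
def Law (F : Fields) (m D : ℕ) (ε : ℝ) : Prop :=
  |share m D (AllGood F) - κ| < ε ∧ |share m D (AllFormula F) - κ| < ε ∧
    κ - ε < share m D (fun n => ∀ i, Nonvanishing (F.K i) n)

section proof

open Q283.GW Q283.GS Q283.GF
open Q283.XF (nf)
open Q283.GM (rk)
open scoped Classical

lemma class_dvd {F : Fields} {d D : ℕ} (hD : Class F D) (hd : d ∣ D) : Class F d :=
  ⟨hD.1.squarefree_of_dvd hd, fun p hp h => hD.2 p hp (h.trans hd)⟩

lemma allGood_iff {F : Fields} {D : ℕ} (hD : Class F D) : AllGood F D ↔ corank D = 0 := by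
  constructor
  · intro h
    exact (good_iff hD ⟨0, F.s_pos⟩).1.1 (h ⟨0, F.s_pos⟩).2
  · intro h i
    obtain ⟨h1, h2⟩ := good_iff hD i
    obtain ⟨-, -, -, -, Λ, h3, h4, h5, -⟩ := h2 h
    exact ⟨⟨Λ, h3, h4, h5⟩, h1.2 h⟩

lemma allFormula_iff {F : Fields} {D : ℕ} (hD : Class F D) : AllFormula F D ↔ corank D = 0 := by
  constructor
  · intro h
    exact (good_iff hD ⟨0, F.s_pos⟩).1.1 (h ⟨0, F.s_pos⟩).1
  · intro h i
    obtain ⟨h1, h2⟩ := good_iff hD i
    exact ⟨h1.2 h, h2 h⟩

lemma large_of {F : Fields} {D t : ℕ} (hD : Class F D) (h : t < corank D) : AllLarge F t D := by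
  intro i hf
  refine le_trans ?_ (sha_low hD i hf)
  exact_mod_cast Nat.pow_le_pow_right (by norm_num) h

lemma number_eq (T : ℕ → Prop) (X : ℕ) : number T X = _root_.Q155.NL.cnt T X := by
  unfold number _root_.Q155.NL.cnt
  rw [Nat.card_congr (Equiv.subtypeEquivRight (q := fun D => D ∈ _root_.Q155.NL.cs T X)
    fun D => _root_.Q155.NL.mem_cs.symm), Nat.card_eq_fintype_card, Fintype.card_coe]

lemma card_share (P : ℕ → Prop) (i : DecidablePred P) (D : ℕ) :
    Nat.card {d : ℕ // d ∈ D.divisors ∧ P d} = (@Finset.filter ℕ P i D.divisors).card := by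
  rw [Nat.card_congr (Equiv.subtypeEquivRight (q := fun d => d ∈ @Finset.filter ℕ P i D.divisors)
    fun d => (@Finset.mem_filter ℕ P i D.divisors d).symm), Nat.card_eq_fintype_card,
    Fintype.card_coe]

lemma share_mono {m D : ℕ} {T T' : ℕ → Prop} (h : ∀ d ∈ D.divisors, T (tw m d) → T' (tw m d)) :
    share m D T ≤ share m D T' := by
  unfold share
  refine div_le_div_of_nonneg_right ?_ (Nat.cast_nonneg _)
  have hfin : Finite {d : ℕ // d ∈ D.divisors ∧ T' (tw m d)} :=
    (D.divisors.finite_toSet.subset fun d hd => hd.1 : {d : ℕ | d ∈ D.divisors ∧ T' (tw m d)}.Finite)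
  exact_mod_cast Nat.card_le_card_of_injective
    (fun d : {d : ℕ // d ∈ D.divisors ∧ T (tw m d)} =>
      (⟨d.1, d.2.1, h d.1 d.2.1 d.2.2⟩ : {d : ℕ // d ∈ D.divisors ∧ T' (tw m d)}))
    fun a b hab => Subtype.ext (congrArg (fun z : {d : ℕ // d ∈ D.divisors ∧ T' (tw m d)} => z.1) hab)

lemma share_congr {m D : ℕ} {T T' : ℕ → Prop} (h : ∀ d ∈ D.divisors, (T (tw m d) ↔ T' (tw m d))) :
    share m D T = share m D T' :=
  le_antisymm (share_mono fun d hd => (h d hd).1) (share_mono fun d hd => (h d hd).2)

lemma share_not {m D : ℕ} (hD : D ≠ 0) (T : ℕ → Prop) : share m D (fun n => ¬ T n) = 1 - share m D T := by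
  have h0 : (D.divisors.card : ℝ) ≠ 0 := by
    have : 0 < D.divisors.card := Finset.card_pos.2 ⟨1, Nat.one_mem_divisors.2 hD⟩
    exact_mod_cast this.ne'
  have h1 := Finset.card_filter_add_card_filter_not (s := D.divisors) (fun d => T (tw m d))
  unfold share
  rw [card_share (fun d => ¬ T (tw m d)) inferInstance, card_share (fun d => T (tw m d)) inferInstance,
    eq_sub_iff_add_eq, ← add_div, div_eq_one_iff_eq h0, add_comm]
  exact_mod_cast h1

lemma share_dsh (m D b : ℕ) : share m D (fun n => corank n = b) =
    _root_.Q155.NL.dsh (fun d => corank (tw m d)) D b := by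
  unfold share _root_.Q155.NL.dsh
  congr 2
  exact card_share _ _ D

lemma share_le (m D t : ℕ) : share m D (fun n => corank n ≤ t) =
    ((D.divisors.filter fun d => (fun d => corank (tw m d)) d ≤ t).card : ℝ) / D.divisors.card := by
  unfold share
  congr 2
  exact card_share _ _ D

/-- the law for almost all `D` of the class -/
lemma alm {F : Fields} {m : ℕ} (hm : Class F m) {ε : ℝ} (hε : 0 < ε) :
    _root_.Q155.NL.Alm (Class F) (_root_.Q155.NL.LD (fun d => corank (tw m d)) ε) := by
  have h1 := _root_.Q155.NL.alm_law (toFL F).ρ.Φ (toFL F).ρ.ok nf (U₀ := m.primeFactors)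
    (fun u hu => Nat.prime_of_mem_primeFactors hu) hε
  have h2 : _root_.Q155.NL.Cl (toFL F).ρ.Φ = Class F := by
    funext D
    refine propext ?_
    rw [class_iff]
    unfold _root_.Q155.NL.Cl FL.CL
    exact and_congr_right fun _ => forall_congr' fun p => forall_congr' fun _ => P_iff (toFL F) p
  rw [h2] at h1
  refine _root_.Q155.NL.alm_mono h1 fun D hD h => (_root_.Q155.NL.ld_congr (fun d hd => ?_) ε).1 h
  have hd' := class_dvd hD hd
  have h3 := tw_class hm hd'
  have h4 := (class_iff F _).1 h3
  rw [corank_eq h4.2.cf, ← rk_CL (toFL F) h4.2, (tw_pf hm.1 hd'.1).2]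

lemma one_class (F : Fields) : Class F 1 :=
  ⟨squarefree_one, fun _ hp h => absurd (Nat.dvd_one.1 h) hp.ne_one⟩

end proof

open Classical in
/-- **Twists over number fields inside the divisors of almost every `D`.** -/
theorem result (F : Fields) :
    (∃ 𝒮 : Set ℕ, (∀ D ∈ 𝒮, Class F D) ∧
      Filter.Tendsto (fun X : ℕ => (number (fun D => D ∈ 𝒮) X : ℝ) / (number (Class F) X : ℝ))
        Filter.atTop (nhds 1) ∧
      ∀ m : ℕ, Class F m → ∀ ε : ℝ, 0 < ε →
        (∀ᶠ D : ℕ in Filter.atTop, D ∈ 𝒮 → Law F m D ε) ∧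
        ∀ t : ℕ, ∀ᶠ D : ℕ in Filter.atTop, D ∈ 𝒮 →
          1 - ∑ b ∈ Finset.range (t + 1), α b - ε < share m D (AllLarge F t)) ∧
    HasSum α 1 ∧ 0.4194 < κ ∧ κ < 0.4195 := by
  have hα : ∀ b, α b = _root_.Q155.KG.al b := fun b => rfl
  have hκ : _root_.Q155.KG.al 0 = κ := by
    rw [_root_.Q155.KG.al_zero]
    rfl
  refine ⟨?_, ?_, Pool.Agent.Y948.CQ.t_C2.2.2.2.1, Pool.Agent.Y948.CQ.t_C2.2.2.2.2⟩
  · obtain ⟨S, h1, h2, h3⟩ := _root_.Q155.NL.dense_gen (κ := ℕ) (C := Class F)
      ⟨1, le_rfl, one_class F⟩ (Class F) (fun m d => corank (tw m d)) fun m hm ε hε => alm hm hε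
    refine ⟨{D | S D}, h1, ?_, fun m hm ε hε => ⟨?_, fun t => ?_⟩⟩
    · refine h2.congr fun X => ?_
      rw [number_eq, number_eq]
      rfl
    · filter_upwards [h3 m hm ε hε] with D hD hS
      have hDc := h1 D hS
      have hcl : ∀ d ∈ D.divisors, Class F (tw m d) := fun d hd =>
        tw_class hm (class_dvd hDc (Nat.dvd_of_mem_divisors hd))
      have h0 := (hD hS).1 0
      rw [hκ, ← share_dsh] at h0
      have e1 : share m D (AllGood F) = share m D (fun n => corank n = 0) :=
        share_congr fun d hd => allGood_iff (hcl d hd)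
      have e2 : share m D (AllFormula F) = share m D (fun n => corank n = 0) :=
        share_congr fun d hd => allFormula_iff (hcl d hd)
      refine ⟨by rw [e1]; exact h0, by rw [e2]; exact h0, ?_⟩
      have h4 : share m D (AllGood F) ≤ share m D (fun n => ∀ i, Nonvanishing (F.K i) n) :=
        share_mono fun d _ hd i => (hd i).1
      rw [e1] at h4
      linarith [(abs_lt.1 h0).1]
    · filter_upwards [h3 m hm (ε / (t + 2)) (by positivity)] with D hD hS
      have hDc := h1 D hS
      have hcl : ∀ d ∈ D.divisors, Class F (tw m d) := fun d hd =>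
        tw_class hm (class_dvd hDc (Nat.dvd_of_mem_divisors hd))
      -- the share of the large coranks is the complement
      have hnot := share_not (m := m) hDc.1.ne_zero (fun n => corank n ≤ t)
      have h5 : share m D (fun n => ¬ corank n ≤ t) ≤ share m D (AllLarge F t) :=
        share_mono fun d hd hn => large_of (hcl d hd) (not_le.1 hn)
      have h6 : ((D.divisors.filter fun d => (fun d => corank (tw m d)) d ≤ t).card : ℝ) /
          D.divisors.card ≤ ∑ b ∈ Finset.range (t + 1), _root_.Q155.KG.al b + (t + 1) * (ε / (t + 2)) :=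
        _root_.Q155.NL.share_ge (hD hS) t
      rw [← share_le] at h6
      have h7 : ((t : ℝ) + 1) * (ε / (t + 2)) < ε := by
        rw [mul_div_assoc', div_lt_iff₀ (by positivity)]
        nlinarith
      have h8 : ∑ b ∈ Finset.range (t + 1), α b = ∑ b ∈ Finset.range (t + 1), _root_.Q155.KG.al b :=
        Finset.sum_congr rfl fun b _ => hα b
      rw [h8]
      linarith
  · have e : α = _root_.Q155.KG.al := funext hα
    rw [e]
    exact _root_.Q155.NL.hasSum_al

end Pool.Agent.Results.MP_50bb2e_nt.TwistsOverFieldsInsideDivisors
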